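import Pool.Agent.R459.Eq6
import Pool.Agent.R459.Eq7
import Pool.Agent.Results.MP_48b1c3_nt.EntangledOnAverage
import Pool.Agent.Results.MP_48b1c3_nt.FewExceptions

/-! # Lenstra's density for almost all members of power-sparse digit families, at every `x` up to a power of `N`

(1) `W = ⟨D n ^ 2⟩`, cyclotomic `F`, arbitrary `k`: the explicit series of Lenstra with the quadratic entanglement.
(2) `W = ⟨W₀, D n ^ r⟩`, arbitrary `(F, C, k)` and `W₀`, for the members `n` which are exactly divisible by a large prime.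

Here `n` runs through families of only `N ^ c` of the integers up to `N`, given by digits: rearrangements of digits,
palindromes, integers with independent pairs of mirror digits (for instance the integers whose `i`-th digit lies in
`D i` for all `i`, for arbitrary sets `D i` of at least two digits).

Definitions used: `Almost b k κ c η τ P` in `Pool.Agent.R459.Eq` (file `Pool/Agent/R459/Eq6.lean`): almost all the
members `c + κ v` of the three families have the property `P`, up to a proportion of at most `τ`; `S`, `δ` of the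
starting results `EntangledOnAverage` (the number of primes `p ≤ x` whose class modulo `f` belongs to `A` and modulo
which the subgroup generated by `u` has an index dividing `m`; Lenstra's series for `⟨D n ^ 2⟩`) and `FewExceptions`
(the number of the primes `q ≤ x` in `𝒮(F, C, W, k)`; Lenstra's density `δ(F, C, W, k)` of Q1). -/

set_option autoImplicit false

namespace Pool.Agent.Results.MP_48b1c3_nt.DigitFamilies

open Finset Filter NumberField
open Pool.Agent.R459.Eq (Almost almost_of Decays)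
open Pool.Agent.R459.EqD (cntZ dat_all)
open Pool.Agent.H771R4.SE (Dat cntE)

/-- `|cf x - δ π(x)| ≤ ε π(x)` for EVERY `x ≥ X` with `x ^ W ≤ N`. -/
def Holds (cf : ℕ → ℕ) (δ ε : ℝ) (X W N : ℕ) : Prop :=
  ∀ x : ℕ, X ≤ x → x ^ W ≤ N → |(cf x : ℝ) - δ * (Nat.primeCounting x : ℝ)| ≤ ε * (Nat.primeCounting x : ℝ)

/-- the integer `n` is positive and exactly divisible by a prime `p > P` -/
def Generic (P : ℕ) (n : ℤ) : Prop := 0 < n ∧ ∃ p : ℕ, p.Prime ∧ P < p ∧ (p : ℤ) ∣ n ∧ ¬ ((p : ℤ) ^ 2 ∣ n)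

/-- from the laws to the families -/
theorem main (b : ℕ) (hb : 2 ≤ b) (η : ℝ) (hη : 0 < η) :
    ∃ W : ℕ, 1 ≤ W ∧ ∀ κ : ℤ, κ ≠ 0 → ∀ (d : Dat) (ε : ℝ), 0 < ε →
    ∃ (C : ℝ) (X₀ : ℕ), 0 < C ∧ 1 ≤ X₀ ∧ ∀ k X : ℕ, 2 ≤ k → X₀ ≤ X → ∀ c : ℤ,
      Almost b k κ c η (C * (Real.log X / X)) (fun n => Holds (cntZ d n) d.A ε X W (b ^ k)) := by
  classical
  obtain ⟨A₁, A₂, γ₁, γ₂, h1, h2, h3, h4, H⟩ := almost_of b hb η hη
  obtain ⟨W₁, hW₁, K₁⟩ := dat_all b hb A₁ γ₁ h1 h2
  obtain ⟨W₂, hW₂, K₂⟩ := dat_all b hb A₂ γ₂ h3 h4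
  refine ⟨max W₁ W₂, hW₁.trans (le_max_left _ _), fun κ hκ d ε hε => ?_⟩
  obtain ⟨C₁, X₁, hC₁, hX₁, J₁⟩ := K₁ (Pool.Agent.TH872.An.GG b) κ (Pool.Agent.TH872.An.GG_pos b hb) hκ d ε hε
  obtain ⟨C₂, X₂, hC₂, hX₂, J₂⟩ := K₂ (b ^ 4).factorial κ (Nat.factorial_pos _) hκ d ε hε
  refine ⟨C₁ + C₂, X₁ + X₂, by positivity, by omega, fun k X hk hX c => ?_⟩
  have hlog : 0 ≤ Real.log X / X := by
    apply div_nonneg (Real.log_nonneg _) (Nat.cast_nonneg _)
    exact_mod_cast (by omega : 1 ≤ X)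
  have key : ∀ (W : ℕ), W ≤ max W₁ W₂ → ∀ n : ℤ, ¬ Holds (cntZ d n) d.A ε X (max W₁ W₂) (b ^ k) →
      ∃ x : ℕ, X ≤ x ∧ x ^ W ≤ b ^ k ∧ ε * (Nat.primeCounting x : ℝ) <
        |(cntZ d n x : ℝ) - d.A * (Nat.primeCounting x : ℝ)| := by
    intro W hW n hn
    unfold Holds at hn
    push Not at hn
    obtain ⟨x, hx1, hx2, hx3⟩ := hn
    exact ⟨x, hx1, (Nat.pow_le_pow_right (by omega) hW).trans hx2, hx3⟩
  refine H k hk κ c _ _ (by positivity) fun F A γ hFA ι Ω w v hdec E hE hbad => ?_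
  rcases hFA with h | h
  · simp only [Prod.mk.injEq] at h
    obtain ⟨rfl, rfl, rfl⟩ := h
    refine (J₁ k X (by omega) ι Ω w v hdec E hE fun i hi => key W₁ (le_max_left _ _) _ (hbad i hi)).trans ?_
    exact mul_le_mul_of_nonneg_right (by linarith) hlog
  · simp only [Prod.mk.injEq] at h
    obtain ⟨rfl, rfl, rfl⟩ := h
    refine (J₂ k X (by omega) ι Ω w v hdec E hE fun i hi => key W₂ (le_max_right _ _) _ (hbad i hi)).trans ?_
    exact mul_le_mul_of_nonneg_right (by linarith) hlog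

open Pool.Agent.R459.Fams (count_mono num_mono prob_mono) in
lemma almost_mono {b k : ℕ} {κ c : ℤ} {η τ : ℝ} {P Q : ℤ → Prop} (h : Almost b k κ c η τ P) (hPQ : ∀ v, P v → Q v) :
    Almost b k κ c η τ Q := by
  obtain ⟨h1, h2, h3⟩ := h
  refine ⟨fun d hd => (count_mono fun σ _ hσ => fun hP => hσ (hPQ _ hP)).trans (h1 d hd), ?_, fun w u hw hu hu1 => ?_⟩
  · refine le_trans ?_ h2
    have h4 := num_mono (b := b) (k := k) (E := fun v : ℕ => ¬ Q (c + κ * v)) (E' := fun v : ℕ => ¬ P (c + κ * v))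
      (fun v hv hP => hv (hPQ _ hP))
    exact_mod_cast h4
  · exact (prob_mono hw.nonneg hu fun d z hσ => fun hP => hσ (hPQ _ hP)).trans (h3 w u hw hu hu1)

lemma cntZ_nat (d : Dat) (n x : ℕ) : cntZ d (n : ℤ) x = cntE d n x := by
  classical
  unfold cntZ cntE Pool.Agent.H386R2.Artin.PP
  rw [filter_filter]
  apply congrArg Finset.card
  apply Finset.filter_congr
  intro p _
  rw [Int.cast_natCast]

/-- **Theorem.** Let `b ≥ 2` and `η > 0`. There is `W` such that for all `κ ≠ 0` the following holds.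

(1) Let `f ≥ 1`, let `A` be a set of residue classes prime to `f`, and let `m ≥ 1`, `D ≠ 0` and `ε > 0`. There are `C` and
`X₀` such that for all `k ≥ 2`, all `X ≥ X₀` and ALL integers `c`, almost all the members `n = c + κ v` of the families
of integers given by `k` digits, with a proportion of at most `C log X / X` of exceptions, satisfy: for EVERY `x ≥ X` with
`x ^ W ≤ b ^ k`, the number of the primes `p ≤ x` whose class modulo `f` belongs to `A` and modulo which the index of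
`⟨D n ^ 2⟩` divides `m` is `δ π(x)` up to an error of at most `ε π(x)`, where `δ = δ f A m D` is Lenstra's series.

(2) Let `(F, C, m)` be as in Q1, let `W₀` be a finitely generated subgroup of `ℚˣ`, `D ∈ ℚˣ`, and `r ≥ 1` such that
`ℓ ^ (ν_ℓ(m) + 1)` divides `r` for all primes `ℓ ∣ r` (every `r` if `m = 1`), `ε > 0`. There are `C'`, `P` and `X₀` such
that for all `k ≥ 2`, all `X ≥ X₀` and all integers `c` almost all the members `n = c + κ v` of the families, with a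
proportion of at most `C' log X / X` of exceptions, have the following property, if they are positive and exactly
divisible by some prime `p > P`: for EVERY `x ≥ X` with `x ^ W ≤ b ^ k`, the number of the primes up to `x` in
`𝒮(F, C, ⟨W₀, D n ^ r⟩, m)` is `δ(F, C, ⟨W₀, D n ^ r⟩, m) π(x)` up to an error of at most `ε π(x)`. -/
theorem result (b : ℕ) (hb : 2 ≤ b) (η : ℝ) (hη : 0 < η) : ∃ W : ℕ, 1 ≤ W ∧ ∀ κ : ℤ, κ ≠ 0 →
    (∀ (f : ℕ) [NeZero f] (A : Finset (ZMod f)ˣ) (m : ℕ), 1 ≤ m → ∀ D : ℤ, D ≠ 0 → ∀ ε : ℝ, 0 < ε →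
      ∃ (C : ℝ) (X₀ : ℕ), ∀ k X : ℕ, 2 ≤ k → X₀ ≤ X → ∀ c : ℤ,
        Almost b k κ c η (C * (Real.log X / X)) (fun n =>
          Holds (EntangledOnAverage.S f A m (D * n ^ 2)) (EntangledOnAverage.δ f A m D) ε X W (b ^ k))) ∧
    (∀ (F : IntermediateField ℚ (AlgebraicClosure ℚ)) [NumberField F] [IsGalois ℚ F]
      (C : Set (F ≃ₐ[ℚ] F)) (W₀ : Subgroup ℚˣ) (m : ℕ) (D : ℚˣ) (r : ℕ),
      (∀ σ ∈ C, ∀ τ : F ≃ₐ[ℚ] F, τ * σ * τ⁻¹ ∈ C) → W₀.FG → 0 < m →
      0 < r → (∀ l : ℕ, l.Prime → l ∣ r → l ^ (m.factorization l + 1) ∣ r) →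
      ∀ ε : ℝ, 0 < ε → ∃ (C' : ℝ) (P X₀ : ℕ), ∀ k X : ℕ, 2 ≤ k → X₀ ≤ X → ∀ c : ℤ,
        Almost b k κ c η (C' * (Real.log X / X)) (fun n => Generic P n →
          Holds (FewExceptions.S F C (W₀ ⊔ Subgroup.closure {w : ℚˣ | (w : ℚ) = (D : ℚ) * (n : ℚ) ^ r}) m)
            (FewExceptions.δ F C (W₀ ⊔ Subgroup.closure {w : ℚˣ | (w : ℚ) = (D : ℚ) * (n : ℚ) ^ r}) m) ε X W
            (b ^ k))) := by
  classical
  obtain ⟨W, hW, H⟩ := main b hb η hη
  refine ⟨W, hW, fun κ hκ => ⟨fun f _ A m hm D hD ε hε => ?_, fun F _ _ C W₀ m D r hC hW₀ hm hr hrm ε hε => ?_⟩⟩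
  · have hfD : NeZero (Pool.Agent.H981R3.LN2.fD f D) := ⟨Pool.Agent.H981R3.LN2.fD_ne hD⟩
    obtain ⟨C, X₀, _, _, h⟩ := H κ hκ (Pool.Agent.H981R3.LN2.dLen2 f A m (by omega) D hD) ε hε
    refine ⟨C, X₀, fun k X hk hX c => ?_⟩
    refine almost_mono (h k X hk hX c) fun n hn x hx1 hx2 => ?_
    have h5 := hn x hx1 hx2
    have e : EntangledOnAverage.S f A m (D * n ^ 2) x =
        cntZ (Pool.Agent.H981R3.LN2.dLen2 f A m (by omega) D hD) n x := by
      unfold cntZ Pool.Agent.H386R2.Artin.PP EntangledOnAverage.S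
      rw [filter_filter]
      apply congrArg Finset.card
      apply Finset.filter_congr_decidable _ _ _ |>.symm.trans
      apply Finset.filter_congr
      intro p _
      simp only [Pool.Agent.H981R3.LN2.dLen2, Int.cast_mul, Int.cast_pow]
      rfl
    rw [e, EntangledOnAverage.δ_eq f A m D]
    exact h5
  · obtain ⟨d, hd⟩ := Pool.Agent.W171.LG.coreR F C W₀ m D hC hW₀ hm.ne' hr hrm
    obtain ⟨P0, x0, hcore⟩ := hd ε hε
    obtain ⟨C', X₀, _, _, h⟩ := H κ hκ d (ε / 2) (by positivity)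
    refine ⟨C', P0, X₀ + x0, fun k X hk hX c => ?_⟩
    refine almost_mono (h k X hk (by omega) c) fun n hn hgen x hx1 hx2 => ?_
    obtain ⟨hn0, p, hp, hpP, hpn, hp2⟩ := hgen
    obtain ⟨n', rfl⟩ : ∃ n' : ℕ, n = n' := ⟨n.toNat, (Int.toNat_of_nonneg hn0.le).symm⟩
    have hn0' : n' ≠ 0 := by omega
    have hG : Pool.Agent.W171.LG.Gen P0 n' := ⟨p, hp, hpP, by exact_mod_cast hpn, fun h => hp2 (by exact_mod_cast h)⟩
    by_contra hcon
    push Not at hcon
    have h5 := hn x hx1 hx2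
    rw [cntZ_nat] at h5
    rw [Int.cast_natCast, Pool.Agent.W171.LG.gp_eqR W₀ D r hn0'] at hcon
    have h6 := hcore n' hn0' hG x (by omega) hcon
    linarith

end Pool.Agent.Results.MP_48b1c3_nt.DigitFamilies
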