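import Mathlib
import Pool.Agent.W54.AD.Fam
import Pool.Agent.W171.EP.IntRangeF

set_option autoImplicit false

/-! # Lenstra's density for `F = ℚ(i)`, `W = ⟨2 m ^ r⟩`, index dividing `2`, for many exponents `r` at once

For the data `F = ℚ(i)`, `C = {complex conjugation}`, `k = 2`, `W = ⟨2 m ^ r⟩` (equivalently `k = 1` and
`W = ⟨-1, 2 m ^ r⟩`) the set of Q1 is the set of the primes `q ≡ 3 mod 4` modulo which `2 m ^ r` has the
order `q - 1` or `(q - 1) / 2`.  Let `S r m x` be the number of these primes `q ≤ x` and let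
`A = ∏_p (1 - 1 / (p (p - 1)))` be Artin's constant.

For all `η > 0`, `C > 1` there is `b > 0` such that for every `ε > 0` there is `δ > 0` such that for every
`L` and all large `N`: for every set `E` of at most `N ^ b` positive exponents `r`, each with at most
`N ^ (1 / 4)` prime factors and with `∑_{l ∣ r, l > L} 1 / l ≤ δ` (sum over primes), all but at most `η N`
of the integers `1 ≤ m ≤ N` satisfy `|S r m x - A π(x)| ≤ ε π(x)` for EVERY exponent `r ∈ E` and for
EVERY `x` with `N ^ C ≤ x ≤ exp (N ^ b)`.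

The exponents may depend on `N`: for the primes `l ∣ r` the condition at `l` is a condition on the number
`2` alone, so the family interpolates between the average over all generators (`r = 1`) and the fixed
generator `2`.

Libraries: helper54 (the data `Pool.Agent.W54.AD`), helper401 (density theorem of Chebotarev),
helper386, helper771, helper981 (large sieve, local counts), helper923 (theorem of Brun and
Titchmarsh), helper171 (base `2`, uniformity). -/

namespace Pool.Agent.Results.MP_48b1c3_nt.ManyExponents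

open Finset Filter Classical
open Pool.Agent.W171.EP (badC intRangeF)
open Pool.Agent.W171.LG (Wr)
open Pool.Agent.W54.AD (datA datA_Q famA_int)
open Pool.Agent.H771R4.SE (cntE Dat)

/-- the number of primes `q ≤ x`, `q ≡ 3 mod 4`, modulo which `2 m ^ r` has order `q - 1` or
`(q - 1) / 2` -/
noncomputable def S (r m x : ℕ) : ℕ :=
  ((Finset.range (x + 1)).filter (fun q : ℕ => q.Prime ∧ q % 4 = 3 ∧
    (orderOf ((2 * m ^ r : ℕ) : ZMod q) = q - 1 ∨
      2 * orderOf ((2 * m ^ r : ℕ) : ZMod q) = q - 1))).card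

/-- Artin's constant -/
noncomputable def A : ℝ := ∏' p : Nat.Primes, (1 - 1 / (((p : ℕ) : ℝ) * (((p : ℕ) : ℝ) - 1)))

theorem result (η C : ℝ) (hη : 0 < η) (hC : 1 < C) :
    ∃ b : ℝ, 0 < b ∧ ∀ ε : ℝ, 0 < ε → ∃ δ : ℝ, 0 < δ ∧ ∀ L : ℕ, ∃ N₀ : ℕ, ∀ N : ℕ, N₀ ≤ N →
      ∀ E : Finset ℕ, (E.card : ℝ) ≤ (N : ℝ) ^ b →
        (∀ r ∈ E, 1 ≤ r ∧ (r.primeFactors.card : ℝ) ≤ (N : ℝ) ^ (1 / 4 : ℝ) ∧
          ∑ l ∈ r.primeFactors.filter (fun l : ℕ => L < l), (1 / (l : ℝ)) ≤ δ) →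
        (((Finset.Icc 1 N).filter (fun m : ℕ => ∃ r ∈ E,
          ∃ x : ℕ, ((N : ℝ) ^ C ≤ x ∧ (x : ℝ) ≤ Real.exp ((N : ℝ) ^ b)) ∧
            ε * (Nat.primeCounting x : ℝ) <
              |(S r m x : ℝ) - A * (Nat.primeCounting x : ℝ)|)).card : ℝ) ≤ η * N := by
  obtain ⟨b, hb, T, ⟨N₁, hT⟩, hall⟩ := intRangeF C hC (η / 2) (by positivity)
  refine ⟨b / 2, by positivity, fun ε hε => ?_⟩
  obtain ⟨δ1, hδ1, hfam1⟩ := famA_int C hC b T hall ε hε
  refine ⟨δ1, hδ1, fun L => ?_⟩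
  obtain ⟨N₂, hN₂⟩ := hfam1 L
  have hpow : ∀ᶠ N : ℕ in atTop, 2 / η ≤ (N : ℝ) ^ (b / 2) :=
    ((tendsto_rpow_atTop (by positivity)).comp tendsto_natCast_atTop_atTop).eventually_ge_atTop _
  obtain ⟨N₃, hN₃⟩ := eventually_atTop.1 hpow
  refine ⟨max (max N₁ N₃) (max N₂ 1), fun N hN E hEc hE => ?_⟩
  have hA1 : N₁ ≤ N := (le_max_left _ _).trans ((le_max_left _ _).trans hN)
  have hA3 : N₃ ≤ N := (le_max_right _ _).trans ((le_max_left _ _).trans hN)
  have hA2 : N₂ ≤ N := (le_max_left _ _).trans ((le_max_right _ _).trans hN)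
  have hA4 : 1 ≤ N := (le_max_right _ _).trans ((le_max_right _ _).trans hN)
  have hN1 : (1 : ℝ) ≤ N := by exact_mod_cast hA4
  have hN0 : (0 : ℝ) < N := by linarith
  have k1 := hT N hA1
  have k3 := hN₃ N hA3
  rw [div_le_iff₀ hη] at k3
  set Bd := (Finset.Icc 1 N).filter (fun m : ℕ => ∃ r ∈ E,
        ∃ x : ℕ, ((N : ℝ) ^ C ≤ x ∧ (x : ℝ) ≤ Real.exp ((N : ℝ) ^ (b / 2))) ∧
          ε * (Nat.primeCounting x : ℝ) <
            |(S r m x : ℝ) - A * (Nat.primeCounting x : ℝ)|) with hBd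
  set F : ℕ → Finset ℕ := fun r => if h : 0 < r then badC (datA ⟨r, h⟩) ε C b N \ T N else ∅ with hF
  have hsub : Bd ⊆ T N ∪ E.biUnion F := by
    intro m hm
    rw [hBd, mem_filter] at hm
    obtain ⟨hmI, r, hrE, x, ⟨hx1, hx2⟩, hx3⟩ := hm
    by_cases hmS : m ∈ T N
    · exact mem_union_left _ hmS
    · apply mem_union_right
      rw [mem_biUnion]
      refine ⟨r, hrE, ?_⟩
      have hr0 : 0 < r := (hE r hrE).1
      simp only [hF]
      rw [dif_pos hr0, Finset.mem_sdiff, badC, mem_filter]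
      refine ⟨⟨hmI, x, ?_, ?_, ?_⟩, hmS⟩
      · rw [← Real.log_rpow hN0]
        exact Real.log_le_log (by positivity) hx1
      · have hx0 : (0 : ℝ) < x := lt_of_lt_of_le (by positivity) hx1
        rw [Real.log_le_iff_le_exp hx0]
        refine hx2.trans (Real.exp_le_exp.2 ?_)
        exact Real.rpow_le_rpow_of_exponent_le hN1 (by linarith)
      · have e : S r m x = cntE (datA ⟨r, hr0⟩) m x := by
          unfold S cntE
          apply congrArg Finset.card
          apply Finset.filter_congr_decidable _ _ _ |>.symm.trans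
          apply Finset.filter_congr
          intro p _
          have hQ : (datA ⟨r, hr0⟩).Q p (m : ZMod p) ↔
              (p % 4 = 3 ∧ (orderOf (2 * (m : ZMod p) ^ r) = p - 1 ∨
                2 * orderOf (2 * (m : ZMod p) ^ r) = p - 1)) := datA_Q ⟨r, hr0⟩ p _
          have hc : ((2 * m ^ r : ℕ) : ZMod p) = 2 * (m : ZMod p) ^ r := by push_cast; rfl
          exact and_congr_right fun _ => (by rw [hc]; exact hQ.symm)
        have e2 : (datA ⟨r, hr0⟩).A = A := rfl
        rw [← e, e2]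
        exact hx3
  have h4 := (card_le_card hsub).trans ((card_union_le _ _).trans
    (Nat.add_le_add_left card_biUnion_le _))
  have h5 : (#Bd : ℝ) ≤ (#(T N) : ℝ) + ∑ r ∈ E, (#(F r) : ℝ) := by
    exact_mod_cast h4
  have h6 : ∑ r ∈ E, (#(F r) : ℝ) ≤ (N : ℝ) ^ (b / 2) * (N : ℝ) ^ (1 - b) := by
    calc ∑ r ∈ E, (#(F r) : ℝ)
        ≤ ∑ r ∈ E, (N : ℝ) ^ (1 - b) := by
          refine sum_le_sum fun r hr => ?_
          have hr0 : 0 < r := (hE r hr).1
          simp only [hF]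
          rw [dif_pos hr0]
          exact hN₂ N hA2 ⟨r, hr0⟩ (hE r hr).2
      _ = (E.card : ℝ) * (N : ℝ) ^ (1 - b) := by
          rw [sum_const, nsmul_eq_mul]
      _ ≤ _ := by gcongr
  have h8 : (N : ℝ) ^ (b / 2) * (N : ℝ) ^ (1 - b) ≤ η / 2 * N := by
    have h9 : (N : ℝ) = (N : ℝ) ^ (b / 2) * (N : ℝ) ^ (1 - b) * (N : ℝ) ^ (b / 2) := by
      rw [← Real.rpow_add hN0, ← Real.rpow_add hN0]
      ring_nf
      simp
    have h10 : 0 < (N : ℝ) ^ (b / 2) * (N : ℝ) ^ (1 - b) := by positivity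
    calc (N : ℝ) ^ (b / 2) * (N : ℝ) ^ (1 - b)
        = ((N : ℝ) ^ (b / 2) * (N : ℝ) ^ (1 - b)) * 1 := by ring
      _ ≤ ((N : ℝ) ^ (b / 2) * (N : ℝ) ^ (1 - b)) * (η / 2 * (N : ℝ) ^ (b / 2)) := by
          gcongr
          linarith
      _ = η / 2 * ((N : ℝ) ^ (b / 2) * (N : ℝ) ^ (1 - b) * (N : ℝ) ^ (b / 2)) := by ring
      _ = η / 2 * N := by rw [← h9]
  linarith

end Pool.Agent.Results.MP_48b1c3_nt.ManyExponents
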