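import Mathlib
import Pool.Agent.W171.LG.CoreR
import Pool.Agent.R345.AP6

set_option autoImplicit false

/-! # Lenstra's density for the groups `⟨W₀, D n ^ r⟩`, from a power of `log N` on

Let `1 / 2 < θ < 1` and `C₀ > 1 / (2 θ - 1)`.  There is `c > 0` such that for every finite Galois
extension `F / ℚ`, every conjugation-stable `C`, every finitely generated `W₀ ≤ ℚˣ`, every `k ≥ 1`,
every nonzero rational `D`, every `r ≥ 1` such that `ℓ ^ (ν_ℓ(k) + 1)` divides `r` for all primes `ℓ ∣ r`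
(every `r` if `k = 1`; `r = 1` for every `k`), every `ε > 0` and all large `N`: all but at most `N ^ θ` of
the integers `n ≤ N` satisfy, with `W = ⟨W₀, D n ^ r⟩`, `|S(x) - δ(F, C, W, k) π(x)| ≤ ε π(x)` for EVERY
`x` with `(log N) ^ C₀ ≤ x ≤ exp ((log N) ^ (1 + c))`, where `S(x)` is the number of primes `q ≤ x` in the
set of Q1 and `δ` is Lenstra's density.

New: the large sieve for products of characters of `j` distinct primes, `j ≍ log N / log x`, taken from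
the blocks of a balanced partition of the bad primes (files `R345/AP1` to `R345/AP4`).  Libraries:
helper401 (density theorem of Chebotarev), helper171 (groups `⟨W₀, D n ^ r⟩`), helper386, helper771,
helper981, helper730 (local counts), helper112 (large sieve). -/

namespace Pool.Agent.Results.MP_48b1c3_nt.PolylogRange

open NumberField Finset Filter Classical
open Pool.Agent.W171.LG (coreR few_nongen Gen Sc tW DR gp_eqR)
open Pool.Agent.H771R4.SE (cntE Dat)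
open Pool.Agent.R345.AP (badZ allX4)
open Pool.Agent.H386R2.Artin (tlog)

/-- the number of primes `q ≤ x` in the set of Q1 -/
noncomputable def S (F : IntermediateField ℚ (AlgebraicClosure ℚ)) [NumberField F]
    (C : Set (F ≃ₐ[ℚ] F)) (W : Subgroup ℚˣ) (k x : ℕ) : ℕ :=
  Nat.card {q : ℕ // q ≤ x ∧ q.Prime ∧
    (∃ σ ∈ C, ∃ Q : Ideal (𝓞 F), Q.IsPrime ∧
        Q.comap (algebraMap ℤ (𝓞 F)) = Ideal.span {(q : ℤ)} ∧
        ∀ a b : 𝓞 F, (b : F) = σ (a : F) → b - a ^ q ∈ Q) ∧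
    (∀ w ∈ W, padicValRat q (w : ℚ) = 0) ∧
    (Subgroup.closure {u : (ZMod q)ˣ | ∃ w ∈ W,
        (((w : ℚ).num : ℤ) : ZMod q) = (u : ZMod q) * (((w : ℚ).den : ℕ) : ZMod q)}).index ∣ k}

/-- Lenstra's density -/
noncomputable def δ (F : IntermediateField ℚ (AlgebraicClosure ℚ)) [NumberField F]
    (C : Set (F ≃ₐ[ℚ] F)) (W : Subgroup ℚˣ) (k : ℕ) : ℝ :=
  ∑' n : ℕ, (ArithmeticFunction.moebius n : ℝ) *
    (Nat.card {σ : F ≃ₐ[ℚ] F // σ ∈ C ∧ ∀ y : F,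
        (y : AlgebraicClosure ℚ) ∈ IntermediateField.adjoin ℚ
          {z : AlgebraicClosure ℚ | ∃ w ∈ W,
            z ^ (∏ l ∈ n.primeFactors, l ^ (k.factorization l + 1)) =
              algebraMap ℚ (AlgebraicClosure ℚ) (w : ℚ)} → σ y = y} : ℝ) /
    (Module.finrank ℚ ↥(F ⊔ IntermediateField.adjoin ℚ
          {z : AlgebraicClosure ℚ | ∃ w ∈ W,
            z ^ (∏ l ∈ n.primeFactors, l ^ (k.factorization l + 1)) =
              algebraMap ℚ (AlgebraicClosure ℚ) (w : ℚ)}) : ℝ)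

/-- the condition on the exponents is open -/
lemma smaller (θ C₀ : ℝ) (hθ : 1 / 2 < θ) (hCθ : 1 < C₀ * (2 * θ - 1)) :
    ∃ θ' : ℝ, 1 / 2 < θ' ∧ θ' < θ ∧ 1 < C₀ * (2 * θ' - 1) := by
  have hcont : ContinuousAt (fun t : ℝ => C₀ * (2 * t - 1)) θ := by fun_prop
  have h1 : ∀ᶠ t in nhds θ, 1 < C₀ * (2 * t - 1) := hcont.eventually (lt_mem_nhds hCθ)
  have h2 : ∀ᶠ t in nhds θ, 1 / 2 < t := lt_mem_nhds hθ
  obtain ⟨δ', hδ', hball⟩ := Metric.eventually_nhds_iff.1 (h1.and h2)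
  have h3 := hball (y := θ - δ' / 2) (by
    rw [Real.dist_eq, sub_sub_cancel_left, abs_neg, abs_of_pos (by positivity)]
    linarith)
  exact ⟨θ - δ' / 2, h3.2, by linarith, h3.1⟩

theorem result (θ C₀ : ℝ) (hθ : 1 / 2 < θ) (hθ1 : θ < 1) (hCθ : 1 < C₀ * (2 * θ - 1)) :
    ∃ c : ℝ, 0 < c ∧
      ∀ (F : IntermediateField ℚ (AlgebraicClosure ℚ)) [NumberField F] [IsGalois ℚ F]
        (C : Set (F ≃ₐ[ℚ] F)) (W₀ : Subgroup ℚˣ) (k : ℕ) (D : ℚˣ) (r : ℕ),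
        (∀ σ ∈ C, ∀ τ : F ≃ₐ[ℚ] F, τ * σ * τ⁻¹ ∈ C) → W₀.FG → 0 < k →
        0 < r → (∀ l : ℕ, l.Prime → l ∣ r → l ^ (k.factorization l + 1) ∣ r) →
        ∀ ε : ℝ, 0 < ε → ∃ N₀ : ℕ, ∀ N : ℕ, N₀ ≤ N →
          (((Finset.Icc 1 N).filter (fun n : ℕ =>
            ∃ x : ℕ, ((Real.log N) ^ C₀ ≤ x ∧ (x : ℝ) ≤ Real.exp ((Real.log N) ^ (1 + c))) ∧
              ε * (Nat.primeCounting x : ℝ) <
                |(S F C (W₀ ⊔ Subgroup.closure {w : ℚˣ | (w : ℚ) = (D : ℚ) * (n : ℚ) ^ r}) k x : ℝ) -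
                  δ F C (W₀ ⊔ Subgroup.closure {w : ℚˣ | (w : ℚ) = (D : ℚ) * (n : ℚ) ^ r}) k *
                    (Nat.primeCounting x : ℝ)|)).card : ℝ) ≤ (N : ℝ) ^ θ := by
  obtain ⟨θ', hθ'2, hθ'θ, hCθ'⟩ := smaller θ C₀ hθ hCθ
  obtain ⟨c, hc, hall⟩ := allX4 θ' C₀ hθ'2 (by linarith) hCθ'
  have hC₀ : 0 < C₀ := by
    by_contra hcon
    push Not at hcon
    have h1 : 0 ≤ 2 * θ - 1 := by linarith
    have := mul_nonpos_of_nonpos_of_nonneg hcon h1
    linarith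
  refine ⟨c, hc, ?_⟩
  intro F _ _ C W₀ k D r hC hW₀ hk hr hrk ε hε
  obtain ⟨d, hd⟩ := coreR F C W₀ k D hC hW₀ hk.ne' hr hrk
  obtain ⟨P0, x0, hcore⟩ := hd ε hε
  obtain ⟨N₁, hN₁⟩ := hall d (ε / 2) (by positivity)
  obtain ⟨K, hK, hfew⟩ := few_nongen P0
  set s : ℝ := (θ - 1 / 2) / 2 with hs
  have hs0 : 0 < s := by
    rw [hs]
    linarith
  have e1 : ∀ᶠ N : ℝ in atTop, 2 ≤ N ^ (θ - θ') :=
    (tendsto_rpow_atTop (by linarith)).eventually_ge_atTop _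
  have e2 : ∀ᶠ N : ℝ in atTop, 4 * K ≤ N ^ s :=
    (tendsto_rpow_atTop hs0).eventually_ge_atTop _
  have e3 : ∀ᶠ N : ℝ in atTop, Real.log N ≤ N ^ s := by
    have h := (isLittleO_log_rpow_atTop (r := s) hs0).bound (c := 1) (by norm_num)
    filter_upwards [h, eventually_gt_atTop 1] with x h1 h2
    rw [Real.norm_of_nonneg (Real.log_nonneg h2.le), Real.norm_of_nonneg (by positivity),
      one_mul] at h1
    exact h1
  obtain ⟨N₂, hN₂⟩ := eventually_atTop.1 ((tendsto_natCast_atTop_atTop (R := ℝ)).eventually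
    ((e1.and e2).and e3))
  have e4 : ∀ᶠ N : ℕ in atTop, (x0 : ℝ) ≤ (Real.log N) ^ C₀ :=
    ((tendsto_rpow_atTop hC₀).comp tlog).eventually_ge_atTop _
  obtain ⟨N₃, hN₃⟩ := eventually_atTop.1 e4
  refine ⟨max (max N₁ N₂) (max N₃ 2), fun N hN => ?_⟩
  have hA1 : N₁ ≤ N := (le_max_left _ _).trans ((le_max_left _ _).trans hN)
  have hA2 : N₂ ≤ N := (le_max_right _ _).trans ((le_max_left _ _).trans hN)
  have hA3 : N₃ ≤ N := (le_max_left _ _).trans ((le_max_right _ _).trans hN)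
  have hA4 : 2 ≤ N := (le_max_right _ _).trans ((le_max_right _ _).trans hN)
  have hN2 : (2 : ℝ) ≤ N := by exact_mod_cast hA4
  have hN0 : (0 : ℝ) < N := by linarith
  have hN1 : (1 : ℝ) ≤ N := by linarith
  obtain ⟨⟨k1, k2⟩, k3⟩ := hN₂ N hA2
  have k4 := hN₁ N hA1
  have k5 := hfew N (by omega)
  set B := (Finset.Icc 1 N).filter (fun n : ℕ =>
            ∃ x : ℕ, ((Real.log N) ^ C₀ ≤ x ∧ (x : ℝ) ≤ Real.exp ((Real.log N) ^ (1 + c))) ∧
              ε * (Nat.primeCounting x : ℝ) <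
                |(S F C (W₀ ⊔ Subgroup.closure {w : ℚˣ | (w : ℚ) = (D : ℚ) * (n : ℚ) ^ r}) k x : ℝ) -
                  δ F C (W₀ ⊔ Subgroup.closure {w : ℚˣ | (w : ℚ) = (D : ℚ) * (n : ℚ) ^ r}) k *
                    (Nat.primeCounting x : ℝ)|) with hB
  have hsub : B ⊆ badZ d (ε / 2) C₀ c N ∪ (Icc 1 N).filter (fun n => ¬ Gen P0 n) := by
    intro n hn
    rw [hB, Finset.mem_filter] at hn
    obtain ⟨hnI, x, ⟨hx1, hx2⟩, hx3⟩ := hn
    have hn0 : n ≠ 0 := by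
      rw [Finset.mem_Icc] at hnI
      omega
    rw [Finset.mem_union]
    by_cases hG : Gen P0 n
    · left
      rw [badZ, Finset.mem_filter]
      refine ⟨hnI, x, hx1, hx2, ?_⟩
      have hx0x : x0 ≤ x := by exact_mod_cast (hN₃ N hA3).trans hx1
      rw [gp_eqR W₀ D r hn0] at hx3
      exact hcore n hn0 hG x hx0x hx3
    · right
      rw [Finset.mem_filter]
      exact ⟨hnI, hG⟩
  have h4 := (card_le_card hsub).trans (card_union_le _ _)
  have h5 : (#B : ℝ) ≤ (#(badZ d (ε / 2) C₀ c N) : ℝ) +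
      (#((Icc 1 N).filter (fun n => ¬ Gen P0 n)) : ℝ) := by
    exact_mod_cast h4
  have h6 : (N : ℝ) ^ θ' ≤ (N : ℝ) ^ θ / 2 := by
    rw [le_div_iff₀ (by norm_num : (0 : ℝ) < 2)]
    calc (N : ℝ) ^ θ' * 2 ≤ (N : ℝ) ^ θ' * (N : ℝ) ^ (θ - θ') := by gcongr
      _ = (N : ℝ) ^ θ := by
          rw [← Real.rpow_add hN0]
          ring_nf
  have h7 : K * (√(N : ℝ) * (1 + Real.log N)) ≤ (N : ℝ) ^ θ / 2 := by
    have h8 : 1 + Real.log N ≤ 2 * (N : ℝ) ^ s := by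
      have : (1 : ℝ) ≤ (N : ℝ) ^ s := Real.one_le_rpow hN1 hs0.le
      linarith
    have h9 : K ≤ (N : ℝ) ^ s / 4 := by linarith
    have h10 : 0 ≤ 1 + Real.log N := by
      have := Real.log_nonneg hN1
      linarith
    calc K * (√(N : ℝ) * (1 + Real.log N))
        ≤ ((N : ℝ) ^ s / 4) * (√(N : ℝ) * (2 * (N : ℝ) ^ s)) := by gcongr
      _ = (N : ℝ) ^ θ / 2 := by
          rw [Real.sqrt_eq_rpow]
          have : (N : ℝ) ^ θ = (N : ℝ) ^ s * (N : ℝ) ^ (1 / 2 : ℝ) * (N : ℝ) ^ s := by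
            rw [← Real.rpow_add hN0, ← Real.rpow_add hN0]
            congr 1
            rw [hs]
            ring
          rw [this]
          ring
  linarith

end Pool.Agent.Results.MP_48b1c3_nt.PolylogRange
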