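import Pool.Agent.R498.MX.MX14

set_option autoImplicit false

/-!
# Strings of consecutive primes in the sets of Lenstra, with a bounded number of exceptions
-/

namespace Pool.Agent.Results.MP_48b1c3_nt.StringsFewExceptions

open Finset Filter

/-- The set `S(F, C, W, κ)` for the `m`-th cyclotomic field `F` and `C = {σ_a}`: primes
`q ≡ a mod m` at which all elements of `W` are units, such that the index of the image of `W` in
`(ℤ/q)ˣ` divides `κ`. -/
def InS (m a κ : ℕ) (W : Subgroup ℚˣ) (q : ℕ) : Prop :=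
  q.Prime ∧ q ≡ a [MOD m] ∧ (∀ w ∈ W, padicValRat q (w : ℚ) = 0) ∧
    (Subgroup.closure {u : (ZMod q)ˣ | ∃ w ∈ W, (((w : ℚ).num : ℤ) : ZMod q) =
      (u : ZMod q) * (((w : ℚ).den : ℕ) : ZMod q)}).index ∣ κ

open Classical in
/-- At least `N / (log N) ^ B` of the integers `n` in `(N, 2 N]` are such that the interval `[n, n + S]` contains
more than `r` primes, and all the primes of this interval are elements of `S(F, C, W, κ)`. -/
def Many (r B S m a κ : ℕ) (W : Subgroup ℚˣ) (N : ℕ) : Prop :=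
  (N : ℝ) ≤ Real.log N ^ B * #{n ∈ Ioc N (2 * N) |
    r < #{p ∈ Icc n (n + S) | p.Prime} ∧ ∀ p ∈ Icc n (n + S), p.Prime → InS m a κ W p}

/-- the rank of `V` is at least `R` -/
def RankGE (R : ℕ) (V : Subgroup ℚˣ) : Prop :=
  ∃ b : Fin R → ℚˣ, (∀ j, b j ∈ V) ∧ ∀ e : Fin R → ℤ, ∏ j, b j ^ e j = 1 → ∀ j, e j = 0

open Classical in
/-- **Strings of consecutive primes in the sets of Lenstra, for all but boundedly many groups.** For every `r`
there are `R`, `C` and `B` such that the following holds for all `m ≥ 1`, `a` coprime to `m`, `κ ≥ 1`, `h ≥ 1` and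
all sets `G` of finitely generated groups `W` of rational numbers with the following properties.
(1) For every odd prime `l` dividing `m` the primes `p ≡ a (mod m)` are not `≡ 1` modulo the greatest common
divisor of `m` and `l ^ (v_l(κ) + 1)`. (2) For each `W` in `G` this also holds for `l = 2`, or at all large primes
`q ≡ a (mod m)` the group `W` contains a non-square. (3) Any `h` of the groups generate a group of rank at least
`R`. Then for all but at most `C (h - 1)` of the groups `W` (for none if `h = 1`) there is an `S` such that for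
arbitrarily large `N` at least `N / (log N) ^ B` of the `n` in `(N, 2 N]` are such that `[n, n + S]` contains more
than `r` primes, all of which are `≡ a (mod m)` and have the property that `W` consists of units modulo them
and that the index of its image divides `κ`. For a finite subset of `G` one `S` is sufficient, and for all large
`N` there are at most `C (h - 1)` groups `W` in it for which `N` does not have this property. -/
theorem result (r : ℕ) : ∃ R C B : ℕ, ∀ (m a κ h : ℕ) (G : Set (Subgroup ℚˣ)),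
    0 < m → a.Coprime m → 0 < κ → 1 ≤ h →
    (∀ l : ℕ, l.Prime → l ≠ 2 → l ∣ m → ¬ a ≡ 1 [MOD Nat.gcd m (l ^ (κ.factorization l + 1))]) →
    (∀ W ∈ G, W.FG ∧
      ((∃ N₀ : ℕ, ∀ q : ℕ, N₀ < q → q.Prime → q ≡ a [MOD m] →
          ∃ w ∈ W, ¬ IsSquare (((w : ℚ).num * (w : ℚ).den : ℤ) : ZMod q)) ∨
        ¬ a ≡ 1 [MOD Nat.gcd m (2 ^ (κ.factorization 2 + 1))])) →
    (∀ J : Finset (Subgroup ℚˣ), (J : Set (Subgroup ℚˣ)) ⊆ G → J.card = h →
      RankGE R (sSup (J : Set (Subgroup ℚˣ)))) →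
    {W ∈ G | ¬ ∃ S : ℕ, ∀ A : ℕ, ∃ N ≥ A, Many r B S m a κ W N}.encard ≤ (C * (h - 1) : ℕ) ∧
    ∀ I : Finset (Subgroup ℚˣ), (I : Set (Subgroup ℚˣ)) ⊆ G →
      ∃ S : ℕ, ∀ᶠ N : ℕ in atTop, #{W ∈ I | ¬ Many r B S m a κ W N} ≤ C * (h - 1) := by
  obtain ⟨R, C, B, -, hgrp⟩ := Pool.Agent.R498.MX.grpX r
  refine ⟨R, C, B, fun m a κ h G hm ham hκ hh ha1 hG hJ => ?_⟩
  have hfin : ∀ I : Finset (Subgroup ℚˣ), (I : Set (Subgroup ℚˣ)) ⊆ G →
      ∃ S : ℕ, ∀ᶠ N : ℕ in atTop, #{W ∈ I | ¬ Many r B S m a κ W N} ≤ C * (h - 1) := by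
    intro I hI
    obtain ⟨S, hS⟩ := hgrp m a κ h hm ham hκ hh ha1 I (fun W hW => (hG W (hI hW)).1)
      (fun W hW => (hG W (hI hW)).2)
      (fun J hJI hJc => hJ J (fun W hW => hI (hJI hW)) hJc)
    refine ⟨S, ?_⟩
    filter_upwards [hS] with N hN
    refine (card_le_card ?_).trans hN
    intro W hW
    rw [mem_filter] at hW ⊢
    refine ⟨hW.1, fun hcon => hW.2 ?_⟩
    unfold Many
    refine hcon.trans ?_
    by_cases hN0 : N = 0
    · subst hN0
      simp
    have hl : 0 ≤ Real.log N := Real.log_natCast_nonneg N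
    apply mul_le_mul_of_nonneg_left _ (by positivity)
    norm_cast
    apply card_le_card
    intro n hn
    rw [mem_filter] at hn ⊢
    refine ⟨hn.1, hn.2.1, fun p hp hpp => ?_⟩
    obtain ⟨h1, h2, h3⟩ := hn.2.2 p hp hpp
    exact ⟨hpp, h1, Pool.Agent.R498.MX.val_zero p hpp W h2, h3⟩
  refine ⟨?_, hfin⟩
  by_contra hcon
  rw [not_le] at hcon
  obtain ⟨V, hVS, hV⟩ := Set.exists_subset_encard_eq (Order.add_one_le_of_lt hcon)
  have hVfin : V.Finite := Set.finite_of_encard_eq_coe (k := C * (h - 1) + 1) (by rw [hV]; push_cast; rfl)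
  obtain ⟨T, rfl⟩ := hVfin.exists_finset_coe
  rw [Set.encard_coe_eq_coe_finsetCard] at hV
  have hTc : T.card = C * (h - 1) + 1 := by exact_mod_cast hV
  have hTS : ∀ W ∈ T, W ∈ G ∧ ¬ ∃ S : ℕ, ∀ A : ℕ, ∃ N ≥ A, Many r B S m a κ W N := fun W hW => hVS hW
  obtain ⟨S, hS⟩ := hfin T (fun W hW => (hTS W hW).1)
  have hfail : ∀ W : Subgroup ℚˣ, ∃ A : ℕ, W ∈ T → ∀ N ≥ A, ¬ Many r B S m a κ W N := by
    intro W
    by_cases hW : W ∈ T
    · have h5 := (hTS W hW).2
      push Not at h5
      obtain ⟨A, hA⟩ := h5 S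
      exact ⟨A, fun _ => hA⟩
    · exact ⟨0, fun h => absurd h hW⟩
  choose A hA using hfail
  obtain ⟨N, hN1, hN2⟩ := (hS.and (eventually_ge_atTop (T.sup A))).exists
  have h6 : T.filter (fun W => ¬ Many r B S m a κ W N) = T := by
    rw [filter_eq_self]
    intro W hW
    exact hA W hW N ((Finset.le_sup (f := A) hW).trans hN2)
  rw [h6] at hN1
  omega

end Pool.Agent.Results.MP_48b1c3_nt.StringsFewExceptions
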